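import Pool.Agent.H49.SDP.Stmt
import Pool.Agent.H91.AV.Stmt

/-!
# SETH for linear and semidefinite programs chosen after the formula: the statement (MP_c62aed_lc)
-/

namespace Pool.Agent.H91.SV

open Pool.Agent.H1.LP (Clause viol)
open Filter Topology

/-- A convex programming relaxation of CNF-SAT on a cell of the cube.  It consists of a convex set,
given by `size` linear inequalities `A y ≤ b` and by the condition that `B0 + ∑ k, y k • B k` is
positive semidefinite, with symmetric matrices of order `ord`, in any dimension `dim`; a feasible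
point `pt x` for every assignment `x` in the cell; and for every clause `C` an affine functional
(its loss), which takes at the points `pt x` values in `[-1, 1]`, and values `≤ 0` if `x` satisfies
`C`.  The convex set does not depend on the formula. -/
structure MRelax (n : ℕ) where
  /-- the cell -/
  cell : Finset (Fin n → Bool)
  /-- the dimension of the convex set -/
  dim : ℕ
  /-- the number of linear inequalities -/
  size : ℕ
  /-- the order of the matrices -/
  ord : ℕ
  /-- the matrix of the inequalities -/
  A : Fin size → Fin dim → ℝ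
  /-- the right hand side of the inequalities -/
  b : Fin size → ℝ
  /-- the constant matrix of the semidefinite constraint -/
  B0 : Matrix (Fin ord) (Fin ord) ℝ
  /-- the coefficient matrices of the semidefinite constraint -/
  B : Fin dim → Matrix (Fin ord) (Fin ord) ℝ
  /-- the feasible point of an assignment -/
  pt : (Fin n → Bool) → Fin dim → ℝ
  /-- the linear part of the loss of a clause -/
  w : Clause n → Fin dim → ℝ
  /-- the constant part of the loss of a clause -/
  w0 : Clause n → ℝ
  symm0 : B0.IsSymm
  symm : ∀ k, (B k).IsSymm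
  feas : ∀ x ∈ cell, ∀ i, ∑ k, A i k * pt x k ≤ b i
  feasB : ∀ x ∈ cell, (B0 + ∑ k, pt x k • B k).PosSemidef
  bdd : ∀ x ∈ cell, ∀ C, |∑ k, w C k * pt x k + w0 C| ≤ 1
  sound : ∀ x ∈ cell, ∀ C : Clause n, C.Sat x → ∑ k, w C k * pt x k + w0 C ≤ 0

/-- the loss of the clause `C` at the point `y`. -/
noncomputable def MRelax.loss {n : ℕ} (P : MRelax n) (C : Clause n) (y : Fin P.dim → ℝ) : ℝ :=
  ∑ k, P.w C k * y k + P.w0 C

/-- The relaxation refutes the formula `phi` with margin `de`: the total loss is at least `de` on
the whole convex set. -/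
def MRelax.Refutes {n m : ℕ} (P : MRelax n) (phi : Fin m → Clause n) (de : ℝ) : Prop :=
  ∀ y : Fin P.dim → ℝ, (∀ i, ∑ k, P.A i k * y k ≤ P.b i) →
    (P.B0 + ∑ k, y k • P.B k).PosSemidef → de ≤ ∑ i, P.loss (phi i) y

/-- Relaxations from the family `P`, with at most `S` linear inequalities and semidefinite
constraints of total order at most `T`, refute the formula `phi` with margin `de`: some of the cells
are disjoint and cover the cube, for each of these cells the total loss is at least `de` on the
whole convex set, and the numbers of inequalities of these relaxations (counting one more for each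
cell) and their orders sum up to at most `S` and `T`.  The choice may depend on `phi`. -/
def MRefutedBy {n M m : ℕ} (P : Fin M → MRelax n) (phi : Fin m → Clause n) (de S T : ℝ) : Prop :=
  ∃ J : Finset (Fin M), (∀ j ∈ J, ∀ j' ∈ J, j ≠ j' → Disjoint (P j).cell (P j').cell) ∧
    (∀ x, ∃ j ∈ J, x ∈ (P j).cell) ∧ (∀ j ∈ J, (P j).Refutes phi de) ∧
    ∑ j ∈ J, (((P j).size : ℝ) + 1) ≤ S ∧ ∑ j ∈ J, ((P j).ord : ℝ) ≤ T

open Classical in
/-- Linear programs of size `2 ^ (c n)` with semidefinite constraints of order `2 ^ (d n)`, chosen
after the formula from a family of total size `2 ^ (C n)`, do not refute `k`-CNFs with `O(n)`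
clauses and with the gap `(1 - ε) / 2 ^ k`.  There are `K` and `γ > 0` such that for all large `n`
there is a finite list of CNFs with `n` variables, at most `K n` clauses, all of width exactly `k`,
every assignment violating at least `(1 - ε) m / 2 ^ k` of the `m` clauses, with the property: for
every family `P` of convex programming relaxations on cells of the cube, of total size at most
`2 ^ (C n)`, at most a fraction `2 ^ (- γ n)` of the formulas of the list is refuted with margin
`2 ^ (- γ n)` by relaxations from `P` with at most `2 ^ (c n)` linear inequalities and semidefinite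
constraints of total order at most `2 ^ (d n)`. -/
def HardM (k : ℕ) (ε c d C : ℝ) : Prop :=
  ∃ (K : ℕ) (γ : ℝ), 0 < γ ∧ ∃ n₀ : ℕ, ∀ n : ℕ, n₀ ≤ n →
    ∃ (Y : ℕ) (m : Fin Y → ℕ) (phi : (a : Fin Y) → Fin (m a) → Clause n), 0 < Y ∧
      (∀ a, 1 ≤ m a ∧ m a ≤ K * n ∧
        (∀ i, (phi a i).card = k ∧ ((phi a i).image Prod.fst).card = k) ∧
        ∀ x, (1 - ε) * ((m a : ℝ) / 2 ^ k) ≤ (viol (phi a) x : ℝ)) ∧
      ∀ (M : ℕ) (P : Fin M → MRelax n),
        ∑ j, (((P j).size : ℝ) + (P j).ord + 1) ≤ (2 : ℝ) ^ (C * n) →
        ((Finset.univ.filter (fun a => MRefutedBy P (phi a) ((2 : ℝ) ^ (-(γ * n)))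
          ((2 : ℝ) ^ (c * n)) ((2 : ℝ) ^ (d * n)))).card : ℝ) ≤ (2 : ℝ) ^ (-(γ * n)) * Y

/-- The large width case: for every `ε > 0` and every `C` there is a width. -/
def StatementMW : Prop :=
  ∀ C ε : ℝ, 0 < ε → ∃ k : ℕ, HardM k ε (1 - ε) (1 / 2 - ε) C

/-- ETH and SETH for linear and semidefinite programs with branch and bound: for every gap `ε > 0`
there are exponents `c k`, `d k`, positive for all `k ≥ 3`, tending to `1` and to `1 / 2`, and
`C k ≥ c k, d k`, tending to infinity, such that linear programs of size `2 ^ (c k n)` with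
semidefinite constraints of order `2 ^ (d k n)`, chosen after the formula from a family of total
size `2 ^ (C k n)`, do not refute `k`-CNFs with `n` variables and `O(n)` clauses, in which every
assignment violates a fraction at least `(1 - ε) / 2 ^ k` of the clauses. -/
def StatementM : Prop :=
  ∀ ε : ℝ, 0 < ε → ∃ c d C : ℕ → ℝ,
    (∀ k, 3 ≤ k → 0 < c k ∧ 0 < d k ∧ c k ≤ C k ∧ d k ≤ C k) ∧
    Tendsto c atTop (𝓝 1) ∧ Tendsto d atTop (𝓝 (1 / 2)) ∧ Tendsto C atTop atTop ∧
    ∀ k, 3 ≤ k → HardM k ε (c k) (d k) (C k)

end Pool.Agent.H91.SV
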