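import Pool.Agent.H91.AV.Targets
import Pool.Agent.H91.SV.Stmt
import Pool.Agent.H43.PS.Targets2
import Pool.Agent.H49.SDP.Targets

/-!
# MP_c62aed_lc: linear and semidefinite relaxations chosen after the formula: targets (helper91)

Last layer on top of `psd_modules` (helper43: `T_SDP`, `T_NRM`, `T_LSH`, `T_TRP`), `av_modules` (same
gadget: block value `(z0, v)` in `ZMod p × Fin q`, table `s : Fin q → ZMod p`, letter `z0 + s v`) and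
`S_SDUAL`, `HardS 3` of helper49.
-/

namespace Pool.Agent.H91.SV

open Finset Matrix
open Pool.Agent.H1.LP (Clause viol Loc Sys Agree supp ip kk)
open Pool.Agent.H96.KX (PDz prs)
open Pool.Agent.H49.SDP (SRelax HardS)
open H43.PS (PosDeg)

/-! ## the psd inequality on a cell -/

/-- CEL: the matrix inequality on a cell of tables and points -/
def S_CEL : Prop :=
  ∀ (p q N h : ℕ) [Fact p.Prime] (e σ : ℝ), 1 < e → e < 3 / 2 → 1 ≤ σ → 0 < q →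
    ∀ (D : (Fin N → ZMod p) → ℝ) (Mx : ℝ), (∀ z, |D z| ≤ Mx) → PosDeg h D →
    ∀ (r : ℕ) (f : (Fin N → Fin q → ZMod p) → Matrix (Fin r) (Fin r) ℝ)
      (g : (Fin N → ZMod p × Fin q) → Matrix (Fin r) (Fin r) ℝ),
    (∀ a, (f a).PosSemidef) → (∀ x, (g x).PosSemidef) →
    ∀ (A : Finset (Fin N → Fin q → ZMod p)) (X : Finset (Fin N → ZMod p × Fin q)) (m E : ℝ),
    0 < m → (∀ a ∈ A, ∀ x ∈ X, (f a * g x).trace ≤ m) →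
    H43.PS.XX p q e σ r (2 * m) (H43.PS.share A * (r : ℝ) ^ e) N h *
      ((Fintype.card (Fin N → Fin q → ZMod p) : ℝ) *
        Fintype.card (Fin N → ZMod p × Fin q)) ≤ E →
    -(Mx * (2 * Real.sqrt ((∑ a ∈ A, ∑ x ∈ X, (f a * g x).trace) * E) + E)) ≤
      ∑ a ∈ A, ∑ x ∈ X, D (fun i => Pool.Agent.H91.AV.hs p (Fin q) (a i) (x i)) *
        (f a * g x).trace

/-- the constant of the error term; `1 / (1 - e0)` is the exponent of the Schatten norm -/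
noncomputable def kc (p q N h : ℕ) (e0 W θ : ℝ) : ℝ :=
  2 ^ (2 * N + 1) * ((p : ℝ) + 1) ^ (2 * N * e0) * (W / θ) ^ e0 * (1 / e0) ^ (h + 1) *
    ((p : ℝ) / q) ^ (((h : ℝ) + 1) * (1 - e0))

/-- XXB: the error term of helper43 -/
def S_XXB : Prop :=
  ∀ (p q N h : ℕ) (e0 W θ : ℝ), 1 ≤ p → 1 ≤ q → 0 < e0 → e0 < 1 / 3 → (p : ℝ) ≤ e0 * q →
    0 < W → 0 < θ → ∃ e σ : ℝ, 1 < e ∧ e < 3 / 2 ∧ 1 ≤ σ ∧
      ∀ r m al : ℝ, 0 ≤ r → r ≤ W → 0 ≤ m → 0 ≤ al →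
        H43.PS.XX p q e σ r (2 * m) (al * r ^ e) N h ≤ kc p q N h e0 W θ * m * r * (al + θ)

/-- CELB: `S_CEL → S_XXB → S_CELB` -/
def S_CELB : Prop :=
  ∀ (p q N h : ℕ) [Fact p.Prime] (e0 W θ : ℝ), 1 ≤ q → 0 < e0 → e0 < 1 / 3 → (p : ℝ) ≤ e0 * q →
    0 < W → 0 < θ →
    ∀ (D : (Fin N → ZMod p) → ℝ) (Mx : ℝ), (∀ z, |D z| ≤ Mx) → PosDeg h D →
    ∀ (r : ℕ) (f : (Fin N → Fin q → ZMod p) → Matrix (Fin r) (Fin r) ℝ)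
      (g : (Fin N → ZMod p × Fin q) → Matrix (Fin r) (Fin r) ℝ), (r : ℝ) ≤ W →
    (∀ a, (f a).PosSemidef) → (∀ x, (g x).PosSemidef) →
    ∀ (A : Finset (Fin N → Fin q → ZMod p)) (X : Finset (Fin N → ZMod p × Fin q)) (m : ℝ),
    0 < m → (∀ a ∈ A, ∀ x ∈ X, (f a * g x).trace ≤ m) →
    -(Mx * (2 * Real.sqrt ((∑ a ∈ A, ∑ x ∈ X, (f a * g x).trace) *
      (kc p q N h e0 W θ * m * r * (A.card + θ * Fintype.card (Fin N → Fin q → ZMod p)) *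
        Fintype.card (Fin N → ZMod p × Fin q))) +
      kc p q N h e0 W θ * m * r * (A.card + θ * Fintype.card (Fin N → Fin q → ZMod p)) *
        Fintype.card (Fin N → ZMod p × Fin q))) ≤
      ∑ a ∈ A, ∑ x ∈ X, D (fun i => Pool.Agent.H91.AV.hs p (Fin q) (a i) (x i)) *
        (f a * g x).trace

/-- LOWP: the pseudo-density is nonnegative on squares (from `Pool.Agent.H73.OX.las`) -/
def S_LOWP : Prop :=
  ∀ (p B d h : ℕ) [Fact p.Prime] (S : Loc p B d), 2 * h ≤ d → PosDeg h (PDz S)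

/-! ## duality -/

/-- MDUAL: `Pool.Agent.H49.SDP.S_SDUAL → S_MDUAL` -/
def S_MDUAL : Prop :=
  ∀ (n m : ℕ) (P : MRelax n) (phi : Fin m → Clause n) (de : ℝ), P.cell.Nonempty →
    P.Refutes phi de → ∀ η : ℝ, 0 < η →
    ∃ (lam : Fin P.size → ℝ) (L : Matrix (Fin P.ord) (Fin P.ord) ℝ) (lam0 : ℝ),
      (∀ i, 0 ≤ lam i) ∧ L.PosSemidef ∧ 0 ≤ lam0 ∧
      ∀ x ∈ P.cell, |∑ i, P.loss (phi i) (P.pt x) - de -
        (lam0 + ∑ i, lam i * (P.b i - ∑ k, P.A i k * P.pt x k) +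
          (L * (P.B0 + ∑ k, P.pt x k • P.B k)).trace)| ≤ η

/-! ## the abstract inequality -/

/-- ABS3: `Pool.Agent.H91.AV.S_FAM → S_ABS3` -/
def S_ABS3 : Prop :=
  ∀ (X Y C : Type) [Fintype X] [Fintype Y] [Fintype C] (K : Y → X → ℝ) (ka kb Mx θ W : ℝ) (r : ℕ)
    (inF : Y → C → Prop) (sat : C → X → Prop),
    1 ≤ r → 0 ≤ ka → 0 ≤ kb → 1 ≤ Mx → 0 < θ → (∀ a x, |K a x| ≤ Mx) →
    (∀ a, ∑ x, K a x = Fintype.card X) →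
    (∀ g : X → ℝ, (∀ x, 0 ≤ g x) → ∃ T : Y → ℝ, (∀ a, 0 ≤ T a) ∧
      (∀ a, -(T a) ≤ ∑ x, g x * K a x) ∧ ∑ a, T a ^ (2 * r) ≤ ka * (∑ x, g x ^ 2) ^ r) →
    (∀ (c : C) (g : X → ℝ), (∀ x, 0 ≤ g x) → (∀ x, g x ≠ 0 → ¬ sat c x) → ∃ T : Y → ℝ,
      (∀ a, 0 ≤ T a) ∧ (∀ a, inF a c → |∑ x, g x * K a x| ≤ T a) ∧
      ∑ a, T a ^ (2 * r) ≤ ka * (∑ x, g x ^ 2) ^ r) →
    (∀ (q : ℕ) (f : Y → Matrix (Fin q) (Fin q) ℝ) (g : X → Matrix (Fin q) (Fin q) ℝ),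
      (q : ℝ) ≤ W → (∀ a, (f a).PosSemidef) → (∀ x, (g x).PosSemidef) →
      ∀ (A : Finset Y) (X' : Finset X) (m : ℝ), 0 < m →
      (∀ a ∈ A, ∀ x ∈ X', (f a * g x).trace ≤ m) →
      -(Mx * (2 * Real.sqrt ((∑ a ∈ A, ∑ x ∈ X', (f a * g x).trace) *
        (kb * m * q * (A.card + θ) * Fintype.card X)) +
        kb * m * q * (A.card + θ) * Fintype.card X)) ≤
        ∑ a ∈ A, ∑ x ∈ X', K a x * (f a * g x).trace) →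
    ∀ (M : ℕ) (A : Finset Y) (J : Y → Finset (Fin M)) (cell : Fin M → Set X) (q o : Fin M → ℕ)
      (sl : (j : Fin M) → Fin (q j) → X → ℝ) (lam : Y → (j : Fin M) → Fin (q j) → ℝ)
      (G : (j : Fin M) → X → Matrix (Fin (o j)) (Fin (o j)) ℝ)
      (L : Y → (j : Fin M) → Matrix (Fin (o j)) (Fin (o j)) ℝ)
      (lam0 : Y → Fin M → ℝ) (ls : Fin M → C → X → ℝ) (de S T : ℝ) (F : Y → Finset C),
      0 < de → 0 ≤ S → 0 ≤ T → (∀ a c, c ∈ F a ↔ inF a c) →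
      (∀ a ∈ A, ∀ x, ∃ j ∈ J a, x ∈ cell j) →
      (∀ a ∈ A, ∀ j ∈ J a, ∀ j' ∈ J a, j ≠ j' → Disjoint (cell j) (cell j')) →
      (∀ j i, ∀ x ∈ cell j, 0 ≤ sl j i x) → (∀ a j i, 0 ≤ lam a j i) →
      (∀ j, ∀ x ∈ cell j, (G j x).PosSemidef) → (∀ a j, (L a j).PosSemidef) →
      (∀ a j, 0 ≤ lam0 a j) →
      (∀ j c, ∀ x ∈ cell j, |ls j c x| ≤ 1) → (∀ j c, ∀ x ∈ cell j, sat c x → ls j c x ≤ 0) →
      (∀ a ∈ A, ∀ j ∈ J a, ∀ x ∈ cell j,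
        |∑ c ∈ F a, ls j c x - de - (lam0 a j + ∑ i, lam a j i * sl j i x +
          (L a j * G j x).trace)| ≤ de / (4 * Mx)) →
      (∀ a ∈ A, ∑ j ∈ J a, ((q j : ℝ) + 1) ≤ S) → (∀ a ∈ A, ∑ j ∈ J a, (o j : ℝ) ≤ T) →
      ∑ j, ((q j : ℝ) + o j + 1) ≤ W → θ * W ≤ A.card →
      de ^ 2 ≤ 64 * Mx ^ 2 * (Fintype.card C : ℝ) ^ 2 * kb * (T + 1) ∨
      de ^ (2 * r) * A.card * (Fintype.card X : ℝ) ^ r ≤
        4 * (Fintype.card C : ℝ) ^ 2 * ka * W * (171 * (Fintype.card C : ℝ) ^ 2 * S) ^ r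

/-! ## assembly -/

/-- the core inequality; `b = (4E+1)(L+1)` bits per block, width `b kk E` -/
def S_COREM : Prop :=
  ∀ (E L r n B : ℕ) (e0 : ℝ), 16 ≤ E → 3 ≤ L → 1 ≤ r →
    2 ^ (2 * r + 1) * (2 * r).factorial ≤ 2 ^ (4 * E) → 0 < e0 → e0 < 1 / 3 →
    1 ≤ e0 * 2 ^ (4 * E) → 2 * kk E ≤ B → B * ((4 * E + 1) * (L + 1)) ≤ n →
    ∃ (Y : ℕ) (m : Fin Y → ℕ) (phi : (a : Fin Y) → Fin (m a) → Clause n), 0 < Y ∧
      (∀ a, 1 ≤ m a ∧ m a ≤ 4 * E * B * 2 ^ ((4 * E + 1) * (L + 1) * kk E) ∧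
        (∀ i, (phi a i).card = (4 * E + 1) * (L + 1) * kk E ∧
          ((phi a i).image Prod.fst).card = (4 * E + 1) * (L + 1) * kk E) ∧
        ∀ x, (1 - 1 / (E : ℝ)) * ((m a : ℝ) / 2 ^ ((4 * E + 1) * (L + 1) * kk E)) ≤
          (viol (phi a) x : ℝ)) ∧
      ∀ (M : ℕ) (P : Fin M → MRelax n) (A : Finset (Fin Y)) (de S T W θ : ℝ), 0 < de → 0 ≤ S →
        0 ≤ T → 0 < W → 0 < θ → (∀ a ∈ A, MRefutedBy P (phi a) de S T) →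
        ∑ j, (((P j).size : ℝ) + (P j).ord + 1) ≤ W → θ * Y * W ≤ A.card →
        de ^ 2 * (e0 ^ ((B - 8 * (B / E)) / 2 + 1) *
            (2 : ℝ) ^ (((4 * E * (L - 1) * ((B - 8 * (B / E)) / 2 + 1) : ℕ) : ℝ) * (1 - e0))) ≤
          64 * (4 * E * B * 2 ^ ((4 * E + 1) * (L + 1) * kk E)) ^ 2 *
            2 ^ (2 * B * (4 * E + 1) + 2 * B + 1) *
            (2 : ℝ) ^ (((((8 * E + 4) * B : ℕ) : ℝ)) * e0) * (W / θ) ^ e0 * (T + 1) ∨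
        de ^ (2 * r) * A.card * 2 ^ (4 * E * r * (L - 3) * (B - 8 * (B / E))) ≤
          4 * (4 * E * B * 2 ^ ((4 * E + 1) * (L + 1) * kk E)) ^ 2 *
            2 ^ (2 * r * B * (8 * E + 3) + B) * W *
            (171 * (4 * E * B * 2 ^ ((4 * E + 1) * (L + 1) * kk E)) ^ 2 * S) ^ r * Y

/-- PARMM: choice of the parameters -/
def S_PARMM : Prop :=
  ∀ C ε : ℝ, 0 < ε → ∃ (E L r K : ℕ) (γ e0 : ℝ), 16 ≤ E ∧ 3 ≤ L ∧ 1 ≤ r ∧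
    2 ^ (2 * r + 1) * (2 * r).factorial ≤ 2 ^ (4 * E) ∧ 0 < e0 ∧ e0 < 1 / 3 ∧
    1 ≤ e0 * 2 ^ (4 * E) ∧ 1 / (E : ℝ) ≤ ε ∧ 0 < γ ∧
    ∃ n₀ : ℕ, ∀ n : ℕ, n₀ ≤ n → ∃ B : ℕ, 2 * kk E ≤ B ∧ B * ((4 * E + 1) * (L + 1)) ≤ n ∧
      4 * E * B * 2 ^ ((4 * E + 1) * (L + 1) * kk E) ≤ K * n ∧
      ∀ (N Y de S T W : ℝ), 0 < N → 0 < Y → de = (2 : ℝ) ^ (-(γ * n)) →
        S = (2 : ℝ) ^ ((1 - ε) * n) → T = (2 : ℝ) ^ ((1 / 2 - ε) * n) → W = (2 : ℝ) ^ (C * n) →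
        (de ^ 2 * (e0 ^ ((B - 8 * (B / E)) / 2 + 1) *
            (2 : ℝ) ^ (((4 * E * (L - 1) * ((B - 8 * (B / E)) / 2 + 1) : ℕ) : ℝ) * (1 - e0))) ≤
          64 * (4 * E * B * 2 ^ ((4 * E + 1) * (L + 1) * kk E)) ^ 2 *
            2 ^ (2 * B * (4 * E + 1) + 2 * B + 1) *
            (2 : ℝ) ^ (((((8 * E + 4) * B : ℕ) : ℝ)) * e0) * (W / (N / (Y * W))) ^ e0 *
            (T + 1) ∨
        de ^ (2 * r) * N * 2 ^ (4 * E * r * (L - 3) * (B - 8 * (B / E))) ≤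
          4 * (4 * E * B * 2 ^ ((4 * E + 1) * (L + 1) * kk E)) ^ 2 *
            2 ^ (2 * r * B * (8 * E + 3) + B) * W *
            (171 * (4 * E * B * 2 ^ ((4 * E + 1) * (L + 1) * kk E)) ^ 2 * S) ^ r * Y) →
        N ≤ (2 : ℝ) ^ (-(γ * n)) * Y

/-- PADM: padding of the clauses, adapt PADA of `av_modules` / `Pool.Agent.H90.SDP` PADS -/
def S_PADM : Prop :=
  ∀ (w k : ℕ) (ε c c' d d' C C' : ℝ), w ≤ k → c' < c → d' < d → C' < C →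
    HardM w ε c d C → HardM k ε c' d' C'

/-- MONOM: fixed families, number of matrix entries as size -/
def S_MONOM : Prop :=
  ∀ (k : ℕ) (ε c : ℝ), HardS k ε c → HardM k ε (c / 2) (c / 2) (c / 2)

/-- LIMM: `S_PADM → S_MONOM → S_LIMM`, adapt LIMA of `av_modules` -/
def S_LIMM : Prop :=
  StatementMW → (∀ ε : ℝ, 0 < ε → ∃ c : ℝ, 0 < c ∧ HardS 3 ε c) → StatementM

end Pool.Agent.H91.SV
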