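import Pool.Agent.H91.SV.Targets

/-! # MP_c62aed_lc, mixed relaxations: the constant of the psd terms (helper91) -/

namespace Pool.Agent.H91.SV

open Finset

theorem kc_nonneg (p q N h : ℕ) (e0 W θ : ℝ) (he : 0 < e0) (hW : 0 < W) (hθ : 0 < θ) :
    0 ≤ kc p q N h e0 W θ := by
  unfold kc
  have h1 : (0 : ℝ) ≤ (p : ℝ) / q := by positivity
  have h2 : (0 : ℝ) ≤ ((p : ℝ) / q) ^ (((h : ℝ) + 1) * (1 - e0)) := Real.rpow_nonneg h1 _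
  have h3 : (0 : ℝ) ≤ (W / θ) ^ e0 := Real.rpow_nonneg (by positivity) _
  have h4 : (0 : ℝ) ≤ ((p : ℝ) + 1) ^ (2 * (N : ℝ) * e0) := Real.rpow_nonneg (by positivity) _
  positivity

theorem kc_bound (p L E B h : ℕ) (e0 W θ : ℝ) (hp : 2 ^ (4 * E) < p) (hp2 : p ≤ 2 ^ (4 * E + 1))
    (hL : 1 ≤ L) (he0 : 0 < e0) (he1 : e0 < 1 / 3) (hW : 0 < W) (hθ : 0 < θ) :
    ((p : ℝ) ^ B) ^ 2 * kc p (p ^ L) B h e0 W θ *
      (e0 ^ (h + 1) * (2 : ℝ) ^ (((4 * E * (L - 1) * (h + 1) : ℕ) : ℝ) * (1 - e0))) ≤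
    2 ^ (2 * B * (4 * E + 1) + 2 * B + 1) * (2 : ℝ) ^ (((((8 * E + 4) * B : ℕ) : ℝ)) * e0) *
      (W / θ) ^ e0 := by
  have hp00 : 0 < p := lt_of_le_of_lt (Nat.zero_le _) hp
  have hp0 : (0 : ℝ) < p := by exact_mod_cast hp00
  have hpR : (p : ℝ) ≤ 2 ^ (4 * E + 1) := by exact_mod_cast hp2
  have hpL : (2 : ℝ) ^ (4 * E) ≤ p := by exact_mod_cast hp.le
  obtain ⟨k, rfl⟩ : ∃ k, L = k + 1 := ⟨L - 1, by omega⟩
  rw [Nat.add_sub_cancel]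
  unfold kc
  -- the factor of the letters
  have h1 : ((p : ℝ) + 1) ^ (2 * (B : ℝ) * e0) ≤
      (2 : ℝ) ^ (((((8 * E + 4) * B : ℕ) : ℝ)) * e0) := by
    have h2 : (p : ℝ) + 1 ≤ 2 ^ (4 * E + 2) := by
      have : (1 : ℝ) ≤ 2 ^ (4 * E + 1) := one_le_pow₀ (by norm_num)
      rw [pow_succ]
      linarith
    calc ((p : ℝ) + 1) ^ (2 * (B : ℝ) * e0) ≤ ((2 : ℝ) ^ (4 * E + 2)) ^ (2 * (B : ℝ) * e0) :=
          Real.rpow_le_rpow (by positivity) h2 (by positivity)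
      _ = (2 : ℝ) ^ (((((8 * E + 4) * B : ℕ) : ℝ)) * e0) := by
          rw [← Real.rpow_natCast, ← Real.rpow_mul (by norm_num)]
          congr 1
          push_cast
          ring
  -- the factor of the pinned blocks
  have h3 : ((p : ℝ) / ((p ^ (k + 1) : ℕ) : ℝ)) ^ (((h : ℝ) + 1) * (1 - e0)) *
      (2 : ℝ) ^ (((4 * E * k * (h + 1) : ℕ) : ℝ) * (1 - e0)) ≤ 1 := by
    have h4 : (p : ℝ) / ((p ^ (k + 1) : ℕ) : ℝ) ≤ (2 : ℝ) ^ (-((4 * E * k : ℕ) : ℝ)) := by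
      rw [Real.rpow_neg (by norm_num), Real.rpow_natCast]
      push_cast
      rw [pow_succ]
      have h5 : (p : ℝ) / ((p : ℝ) ^ k * p) = ((p : ℝ) ^ k)⁻¹ := by
        field_simp
      rw [h5]
      apply inv_anti₀ (by positivity)
      rw [pow_mul]
      gcongr
    have h6 : 0 ≤ ((h : ℝ) + 1) * (1 - e0) := by
      apply mul_nonneg (by positivity)
      linarith
    calc ((p : ℝ) / ((p ^ (k + 1) : ℕ) : ℝ)) ^ (((h : ℝ) + 1) * (1 - e0)) *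
          (2 : ℝ) ^ (((4 * E * k * (h + 1) : ℕ) : ℝ) * (1 - e0))
        ≤ ((2 : ℝ) ^ (-((4 * E * k : ℕ) : ℝ))) ^ (((h : ℝ) + 1) * (1 - e0)) *
          (2 : ℝ) ^ (((4 * E * k * (h + 1) : ℕ) : ℝ) * (1 - e0)) := by
          refine mul_le_mul_of_nonneg_right ?_ (by positivity)
          exact Real.rpow_le_rpow (by positivity) h4 h6
      _ = 1 := by
          rw [← Real.rpow_mul (by norm_num), ← Real.rpow_add (by norm_num)]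
          have : -((4 * E * k : ℕ) : ℝ) * (((h : ℝ) + 1) * (1 - e0)) +
              ((4 * E * k * (h + 1) : ℕ) : ℝ) * (1 - e0) = 0 := by
            push_cast
            ring
          rw [this, Real.rpow_zero]
  have h7 : ((p : ℝ) ^ B) ^ 2 ≤ 2 ^ (2 * B * (4 * E + 1)) := by
    calc ((p : ℝ) ^ B) ^ 2 ≤ ((2 ^ (4 * E + 1)) ^ B) ^ 2 := by gcongr
      _ = 2 ^ (2 * B * (4 * E + 1)) := by
          rw [← pow_mul, ← pow_mul]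
          congr 1
          ring
  have h8 : (1 / e0) ^ (h + 1) * e0 ^ (h + 1) = 1 := by
    rw [← mul_pow, one_div_mul_cancel he0.ne', one_pow]
  obtain ⟨Z1, hZ1⟩ : ∃ Z1, Z1 = ((p : ℝ) + 1) ^ (2 * (B : ℝ) * e0) := ⟨_, rfl⟩
  obtain ⟨Z2, hZ2⟩ : ∃ Z2, Z2 = ((p : ℝ) / ((p ^ (k + 1) : ℕ) : ℝ)) ^
    (((h : ℝ) + 1) * (1 - e0)) := ⟨_, rfl⟩
  obtain ⟨Z3, hZ3⟩ : ∃ Z3, Z3 = (2 : ℝ) ^ (((4 * E * k * (h + 1) : ℕ) : ℝ) * (1 - e0)) := ⟨_, rfl⟩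
  obtain ⟨Z4, hZ4⟩ : ∃ Z4, Z4 = (2 : ℝ) ^ (((((8 * E + 4) * B : ℕ) : ℝ)) * e0) := ⟨_, rfl⟩
  obtain ⟨Z5, hZ5⟩ : ∃ Z5, Z5 = (W / θ) ^ e0 := ⟨_, rfl⟩
  rw [← hZ1, ← hZ2, ← hZ3, ← hZ4, ← hZ5]
  rw [← hZ1, ← hZ4] at h1
  rw [← hZ2, ← hZ3] at h3
  have z1 : 0 ≤ Z1 := by rw [hZ1]; exact Real.rpow_nonneg (by positivity) _
  have z2 : 0 ≤ Z2 := by rw [hZ2]; exact Real.rpow_nonneg (by positivity) _
  have z3 : 0 ≤ Z3 := by rw [hZ3]; positivity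
  have z4 : 0 ≤ Z4 := by rw [hZ4]; positivity
  have z5 : 0 ≤ Z5 := by rw [hZ5]; exact Real.rpow_nonneg (by positivity) _
  calc ((p : ℝ) ^ B) ^ 2 * (2 ^ (2 * B + 1) * Z1 * Z5 * (1 / e0) ^ (h + 1) * Z2) *
        (e0 ^ (h + 1) * Z3)
      = ((p : ℝ) ^ B) ^ 2 * 2 ^ (2 * B + 1) * Z1 * Z5 * ((1 / e0) ^ (h + 1) * e0 ^ (h + 1)) *
        (Z2 * Z3) := by ring
    _ = ((p : ℝ) ^ B) ^ 2 * 2 ^ (2 * B + 1) * Z1 * Z5 * (Z2 * Z3) := by rw [h8, mul_one]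
    _ ≤ 2 ^ (2 * B * (4 * E + 1)) * 2 ^ (2 * B + 1) * Z4 * Z5 * 1 := by gcongr
    _ = 2 ^ (2 * B * (4 * E + 1) + 2 * B + 1) * Z4 * Z5 := by
        rw [mul_one, ← pow_add]
        rfl

end Pool.Agent.H91.SV
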