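import Pool.Agent.H91.SV.Targets

/-! # MP_c62aed_lc, mixed relaxations: the large width case from the core (helper91) -/

namespace Pool.Agent.H91.SV

open Finset
open Pool.Agent.H1.LP (Clause viol Loc Sys Agree supp ip kk)

theorem pf_FINM (hC : S_COREM) (hP : S_PARMM) : StatementMW := by
  classical
  intro C ε hε
  obtain ⟨E, L, r, K, γ, e0, hE, hL, hr, hfac, he0, he1, he2, hEε, hγ, n₀, hn⟩ := hP C ε hε
  refine ⟨(4 * E + 1) * (L + 1) * kk E, K, γ, hγ, n₀, fun n hn0 => ?_⟩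
  obtain ⟨B, hkB, hBn, hKn, hpar⟩ := hn n hn0
  obtain ⟨Y, m, phi, hY, h1, h2⟩ := hC E L r n B e0 hE hL hr hfac he0 he1 he2 hkB hBn
  refine ⟨Y, m, phi, hY, ?_, ?_⟩
  · intro a
    obtain ⟨g1, g2, g3, g4⟩ := h1 a
    refine ⟨g1, g2.trans hKn, g3, fun x => le_trans ?_ (g4 x)⟩
    gcongr
  · intro M P hW
    obtain ⟨A, hA⟩ : ∃ A, A = univ.filter (fun a => MRefutedBy P (phi a) ((2 : ℝ) ^ (-(γ * n)))
      ((2 : ℝ) ^ ((1 - ε) * n)) ((2 : ℝ) ^ ((1 / 2 - ε) * n))) := ⟨_, rfl⟩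
    have hYR : (0 : ℝ) < Y := by exact_mod_cast hY
    rw [← hA]
    rcases Nat.eq_zero_or_pos A.card with h0 | h0
    · rw [h0]
      push_cast
      positivity
    have hAR : (0 : ℝ) < A.card := by exact_mod_cast h0
    have hW0 : (0 : ℝ) < (2 : ℝ) ^ (C * n) := by positivity
    have h3 := h2 M P A ((2 : ℝ) ^ (-(γ * n))) ((2 : ℝ) ^ ((1 - ε) * n))
      ((2 : ℝ) ^ ((1 / 2 - ε) * n)) ((2 : ℝ) ^ (C * n)) (A.card / (Y * (2 : ℝ) ^ (C * n)))
      (by positivity) (by positivity) (by positivity) hW0 (by positivity)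
      (fun a ha => by
        rw [hA] at ha
        exact (mem_filter.1 ha).2) hW (by
        apply le_of_eq
        field_simp)
    exact hpar A.card Y _ _ _ _ hAR hYR rfl rfl rfl rfl h3

end Pool.Agent.H91.SV
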